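import Mathlib
import Pool.Agent.Helper1.CantorQ1

/-!
Problem MP_ba8092_nt, Q1, full (affirmative) answer.

All notions (basic sequence, Cantor series expansion, `𝒩(Q)`, `𝒟𝒩(Q)`, fully divergent, infinite
in limit) are defined in `Pool/Agent/Helper1/CantorDefs.lean`, following the problem file word for
word.  Existence and uniqueness of the expansion are proved in `CantorExpansion.lean`.
-/

set_option autoImplicit false

namespace Pool.Agent.Results.MP_ba8092_nt.NormalNotDistNormal

open Pool.Agent.Helper1.Cantor

/-- For **every** basic sequence `Q` that is infinite in limit and fully divergent, the set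
`𝒩(Q) \ 𝒟𝒩(Q)` of `Q`-normal but not `Q`-distribution normal numbers has Hausdorff dimension `1`. -/
theorem result (q : ℕ → ℕ) (hbasic : IsBasic q) (hlim : InfiniteInLimit q)
    (hdiv : FullyDivergent q) : dimH (QNormal q \ DistNormal q) = 1 :=
  dimH_normal_diff_distNormal hbasic hlim hdiv

end Pool.Agent.Results.MP_ba8092_nt.NormalNotDistNormal
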