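import Mathlib
import Pool.Agent.Helper1.CantorQ2

/-!
Problem MP_ba8092_nt, Q2, full (affirmative) answer.

All notions are defined in `Pool/Agent/Helper1/CantorDefs.lean`, following the problem file word
for word.  Existence and uniqueness of the expansion are proved in `CantorExpansion.lean`.
-/

set_option autoImplicit false

namespace Pool.Agent.Results.MP_ba8092_nt.NormalityOrders

open Pool.Agent.Helper1.Cantor

/-- For **every** basic sequence `Q` that is infinite in limit and fully divergent and every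
`ℓ ≥ 1`, the set `⋂_{j ≥ ℓ} 𝒩_j(Q) \ ⋃_{1 ≤ j < ℓ} 𝒩_j(Q)` has Hausdorff dimension `1`. -/
theorem result (q : ℕ → ℕ) (hbasic : IsBasic q) (hlim : InfiniteInLimit q)
    (hdiv : FullyDivergent q) (ℓ : ℕ) (hℓ : 1 ≤ ℓ) :
    dimH ((⋂ j ∈ Set.Ici ℓ, NormalOrder q j) \ ⋃ j ∈ Set.Ico 1 ℓ, NormalOrder q j) = 1 :=
  dimH_normality_orders hbasic hlim hdiv ℓ hℓ

end Pool.Agent.Results.MP_ba8092_nt.NormalityOrders
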